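import Pool.Agent.Lib.MP_d9b062_al.Defs

/-!
# Free groups of isometries do not act properly discontinuously on `ℝ^N`

A group of isometries of `ℝ^N` acting properly discontinuously has polynomial growth, because the
orbit of the origin meets every ball in boundedly many points; a non-abelian free group has
exponential growth.
-/

namespace Pool.Agent.Lib.MP_d9b062_al

namespace H31

open Filter Topology

variable {N : ℕ}

/-- Length of the translation part is subadditive. -/
theorem norm_tr_mul_le (Γ : Subgroup (Aff (V N)))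
    (hiso : ∀ γ ∈ Γ, ∀ v, ‖(γ.lin : Op N) v‖ = ‖v‖) (x y : Aff (V N)) (hx : x ∈ Γ) :
    ‖(x * y).tr‖ ≤ ‖x.tr‖ + ‖y.tr‖ := by
  rw [Aff.mul_tr]
  refine (norm_add_le _ _).trans ?_
  rw [hiso x hx]

theorem norm_inv_mul_tr (Γ : Subgroup (Aff (V N)))
    (hiso : ∀ γ ∈ Γ, ∀ v, ‖(γ.lin : Op N) v‖ = ‖v‖) (x y : Aff (V N)) (hx : x ∈ Γ) :
    ‖(x⁻¹ * y).tr‖ = ‖y.tr - x.tr‖ := by
  rw [Aff.mul_tr, Aff.inv_tr, Aff.inv_lin]
  have h := hiso x⁻¹ (Γ.inv_mem hx) (y.tr - x.tr)
  rw [Aff.inv_lin] at h
  rw [← h, map_sub]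
  congr 1
  abel

/-- Positive words in two letters. -/
def word {κ : Type} (c : Bool → κ) (l : List Bool) : FreeGroup κ :=
  FreeGroup.mk (l.map (fun b => (c b, true)))

theorem word_injective {κ : Type} (c : Bool → κ) (hc : Function.Injective c) :
    Function.Injective (word c) := by
  classical
  have hred : ∀ l : List Bool, FreeGroup.IsReduced (l.map (fun b => (c b, true))) := by
    intro l
    unfold FreeGroup.IsReduced
    induction l with
    | nil => simp
    | cons b l ih =>
        cases l with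
        | nil => simp
        | cons b' l =>
            simp only [List.map_cons] at ih ⊢
            exact List.isChain_cons_cons.2 ⟨fun _ => rfl, ih⟩
  intro l l' h
  have h1 := congrArg FreeGroup.toWord h
  unfold word at h1
  rw [FreeGroup.toWord_mk, FreeGroup.toWord_mk, (hred l).reduce_eq, (hred l').reduce_eq] at h1
  have hinj : Function.Injective (fun b => (c b, true)) := by
    intro b b' hb
    exact hc (Prod.ext_iff.1 hb).1
  exact List.map_injective_iff.2 hinj h1

theorem word_cons {κ : Type} (c : Bool → κ) (b : Bool) (l : List Bool) :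
    word c (b :: l) = FreeGroup.of (c b) * word c l := by
  unfold word FreeGroup.of
  rw [FreeGroup.mul_mk]
  rfl

theorem poly_lt_exp (M A B N : ℕ) (h : ∀ k : ℕ, 2 ^ k ≤ M * (A * k + B) ^ N) : False := by
  have h1 : ∀ k : ℕ, 1 ≤ k → (2 : ℝ) ^ k ≤ (M * (A + B + 1) ^ N : ℝ) * (k : ℝ) ^ N := by
    intro k hk
    have h2 : 2 ^ k ≤ M * ((A + B + 1) * k) ^ N := by
      refine (h k).trans ?_
      apply Nat.mul_le_mul_left
      apply Nat.pow_le_pow_left
      nlinarith
    have h3 : ((2 ^ k : ℕ) : ℝ) ≤ ((M * ((A + B + 1) * k) ^ N : ℕ) : ℝ) := by exact_mod_cast h2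
    push_cast at h3
    rw [mul_pow] at h3
    linarith
  have hlim := tendsto_pow_const_div_const_pow_of_one_lt N (by norm_num : (1 : ℝ) < 2)
  have hC : (0 : ℝ) < (M * (A + B + 1) ^ N : ℝ) + 1 := by positivity
  have hev := hlim.eventually (gt_mem_nhds (show (0 : ℝ) < 1 / ((M * (A + B + 1) ^ N : ℝ) + 1) by
    positivity))
  obtain ⟨k, hk1, hk2⟩ := (hev.and (eventually_ge_atTop 1)).exists
  have h4 := h1 k hk2
  have hpow : (0 : ℝ) < 2 ^ k := by positivity
  rw [div_lt_div_iff₀ hpow hC, one_mul] at hk1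
  have h5 : (0 : ℝ) ≤ (k : ℝ) ^ N := by positivity
  nlinarith

end H31

open H31 in
/-- TASK CPT (compact case): a nonabelian free group cannot act properly discontinuously on `ℝ^N`
by isometries. -/
theorem no_free_isometric {N : ℕ} (Γ : Subgroup (Aff (V N)))
    (hfree : ∃ (κ : Type) (_ : Nontrivial κ), Nonempty (Γ ≃* FreeGroup κ))
    (hiso : ∀ γ ∈ Γ, ∀ v, ‖(γ.lin : Op N) v‖ = ‖v‖)
    (hpd : ∀ K : Set (V N), IsCompact K →
      {γ : Aff (V N) | γ ∈ Γ ∧ (γ.act '' K ∩ K).Nonempty}.Finite) : False := by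
  classical
  obtain ⟨κ, hκ, ⟨e⟩⟩ := hfree
  obtain ⟨x, y, hxy⟩ := exists_pair_ne κ
  let c : Bool → κ := fun b => if b then x else y
  have hc : Function.Injective c := by
    intro b b' h
    cases b <;> cases b' <;> simp_all [c]
  -- elements with small translation part
  have hF : {γ : Aff (V N) | γ ∈ Γ ∧ ‖γ.tr‖ ≤ 1}.Finite := by
    apply (hpd (Metric.closedBall 0 1) (isCompact_closedBall 0 1)).subset
    rintro γ ⟨h1, h2⟩
    refine ⟨h1, γ.tr, ⟨0, by simp, by simp [Aff.act]⟩, by simpa using h2⟩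
  set F := hF.toFinset with hFdef
  have hFmem : ∀ γ, γ ∈ F ↔ γ ∈ Γ ∧ ‖γ.tr‖ ≤ 1 := by
    intro γ
    rw [hFdef, Set.Finite.mem_toFinset]
    rfl
  -- words
  let W : List Bool → Aff (V N) := fun l => ((e.symm (word c l) : Γ) : Aff (V N))
  have hWΓ : ∀ l, W l ∈ Γ := fun l => (e.symm (word c l)).2
  have hWinj : Function.Injective W := by
    intro l l' h
    exact word_injective c hc (e.symm.injective (Subtype.ext h))
  obtain ⟨m, hm⟩ : ∃ m : ℕ, ∀ b : Bool,
      ‖((e.symm (FreeGroup.of (c b)) : Γ) : Aff (V N)).tr‖ ≤ m := by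
    obtain ⟨m, hm⟩ := exists_nat_ge (max ‖((e.symm (FreeGroup.of (c true)) : Γ) : Aff (V N)).tr‖
      ‖((e.symm (FreeGroup.of (c false)) : Γ) : Aff (V N)).tr‖)
    refine ⟨m, fun b => ?_⟩
    cases b
    · exact (le_max_right _ _).trans hm
    · exact (le_max_left _ _).trans hm
  have hWnorm : ∀ l : List Bool, ‖(W l).tr‖ ≤ l.length * m := by
    intro l
    induction l with
    | nil =>
        have : W [] = 1 := by
          simp only [W, word, List.map_nil]
          have : (FreeGroup.mk [] : FreeGroup κ) = 1 := rfl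
          rw [this, map_one]
          rfl
        rw [this]
        simp
    | cons b l ih =>
        have h1 : W (b :: l) = ((e.symm (FreeGroup.of (c b)) : Γ) : Aff (V N)) * W l := by
          simp only [W, word_cons, map_mul]
          rfl
        rw [h1]
        refine (norm_tr_mul_le Γ hiso _ _ (e.symm (FreeGroup.of (c b))).2).trans ?_
        have := hm b
        push_cast [List.length_cons]
        linarith
  -- cells
  let cell : V N → Fin N → ℤ := fun v i => ⌊((N : ℝ) + 1) * v i⌋
  have hcell : ∀ v w : V N, cell v = cell w → ‖w - v‖ ≤ 1 := by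
    intro v w h
    rw [EuclideanSpace.norm_eq, Real.sqrt_le_left (by norm_num), one_pow]
    have h1 : ∀ i, ‖(w - v) i‖ ^ 2 ≤ 1 / ((N : ℝ) + 1) := by
      intro i
      have h2 := congrFun h i
      simp only [cell] at h2
      have h3 := Int.abs_sub_lt_one_of_floor_eq_floor h2
      have hN : (0 : ℝ) < (N : ℝ) + 1 := by positivity
      rw [← mul_sub, abs_mul, abs_of_pos hN] at h3
      have h4 : ‖(w - v) i‖ < 1 / ((N : ℝ) + 1) := by
        rw [lt_div_iff₀ hN, Real.norm_eq_abs]
        have : (w - v) i = -(v i - w i) := by simp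
        rw [this, abs_neg]
        linarith
      have h5 : 1 / ((N : ℝ) + 1) ≤ 1 := by
        rw [div_le_one hN]
        linarith [(Nat.cast_nonneg N : (0 : ℝ) ≤ N)]
      have h6 := norm_nonneg ((w - v) i)
      nlinarith
    calc ∑ i, ‖(w - v) i‖ ^ 2 ≤ ∑ _i : Fin N, 1 / ((N : ℝ) + 1) := Finset.sum_le_sum fun i _ => h1 i
      _ = N / ((N : ℝ) + 1) := by simp [div_eq_mul_inv]
      _ ≤ 1 := by
          rw [div_le_one (by positivity)]
          linarith
  apply poly_lt_exp F.card (2 * (N + 1) * m) 3 N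
  intro k
  -- pigeonhole
  let T : Finset (Fin N → ℤ) := Fintype.piFinset (fun _ => Finset.Icc
    (-(((N + 1) * (k * m) + 1 : ℕ) : ℤ)) (((N + 1) * (k * m) + 1 : ℕ) : ℤ))
  have hTcard : T.card = (2 * (N + 1) * m * k + 3) ^ N := by
    simp only [T, Fintype.card_piFinset, Int.card_Icc, Finset.prod_const, Finset.card_univ,
      Fintype.card_fin]
    congr 1
    push_cast
    have : ((N : ℤ) + 1) * (k * m) + 1 + 1 - -((N + 1) * (k * m) + 1) =
        ((2 * (N + 1) * m * k + 3 : ℕ) : ℤ) := by push_cast; ring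
    rw [this]
    exact Int.toNat_natCast _
  have hpig := Finset.card_le_mul_card_image_of_maps_to (s := (Finset.univ : Finset (Fin k → Bool)))
    (t := T) (f := fun u => cell (W (List.ofFn u)).tr) ?_ F.card ?_
  · rw [hTcard] at hpig
    simpa using hpig
  · intro u _
    simp only [T, Fintype.mem_piFinset, Finset.mem_Icc]
    intro i
    have h1 : ‖(W (List.ofFn u)).tr i‖ ≤ k * m := by
      refine (PiLp.norm_apply_le _ i).trans ?_
      have := hWnorm (List.ofFn u)
      rwa [List.length_ofFn] at this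
    rw [Real.norm_eq_abs, abs_le] at h1
    have hN : (0 : ℝ) < (N : ℝ) + 1 := by positivity
    constructor
    · rw [Int.le_floor]
      push_cast
      nlinarith
    · rw [Int.floor_le_iff]
      push_cast
      nlinarith
  · intro b _
    -- a fibre injects into `F`
    by_cases hemp : (Finset.univ.filter (fun u : Fin k → Bool =>
        cell (W (List.ofFn u)).tr = b)).Nonempty
    · obtain ⟨u₀, hu₀⟩ := hemp
      rw [Finset.mem_filter] at hu₀
      apply Finset.card_le_card_of_injOn (fun u => (W (List.ofFn u₀))⁻¹ * W (List.ofFn u))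
      · intro u hu
        simp only [Finset.coe_filter, Finset.mem_univ, true_and, Set.mem_ofPred_eq] at hu
        simp only [Finset.mem_coe]
        rw [hFmem]
        refine ⟨Γ.mul_mem (Γ.inv_mem (hWΓ _)) (hWΓ _), ?_⟩
        rw [norm_inv_mul_tr Γ hiso _ _ (hWΓ _)]
        apply hcell
        rw [hu₀.2, hu]
      · intro u _ u' _ h
        have h1 : W (List.ofFn u) = W (List.ofFn u') := mul_left_cancel h
        exact List.ofFn_injective (hWinj h1)
    · rw [Finset.not_nonempty_iff_eq_empty] at hemp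
      rw [hemp]
      simp

end Pool.Agent.Lib.MP_d9b062_al
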